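import Mathlib

set_option autoImplicit false

open Finset

namespace Pool.Agent.Results.MP_b6f08f_co.Lower

/-- The tribes function on `s` blocks of `w` bits: some block is all ones. -/
def Tr {s w : ℕ} (x : Fin s → Fin w → Bool) : Prop := ∃ i, ∀ j, x i j = true

instance {s w : ℕ} : DecidablePred (Tr (s := s) (w := w)) := fun x => by
  unfold Tr; infer_instance

/-- Hamming distance on all `s w` bits. -/
def d {s w : ℕ} (x y : Fin s → Fin w → Bool) : ℕ := ∑ i, hammingDist (x i) (y i)

/-- The uniform probability measure on the set where `P` holds. -/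
noncomputable def unif {X : Type} [Fintype X] (P : X → Prop) [DecidablePred P] (x : X) : ℝ :=
  if P x then 1 / ((univ.filter P).card : ℝ) else 0

lemma sum_pi {b : Type} (s : ℕ) (B : Finset b) (f : b → ℝ) :
    (∑ x ∈ Fintype.piFinset fun _ : Fin s => B, ∑ i, f (x i)) * B.card =
      s * (∑ y ∈ B, f y) * (B.card : ℝ) ^ s := by
  rw [sum_comm, sum_mul]
  have h : ∀ i : Fin s, (∑ x ∈ Fintype.piFinset fun _ : Fin s => B, f (x i)) * B.card =
      (∑ y ∈ B, f y) * (B.card : ℝ) ^ s := by
    intro i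
    have h1 := prod_univ_sum (fun _ : Fin s => B) fun j y => if j = i then f y else 1
    simp only [prod_ite_eq', mem_univ, if_true] at h1
    rw [← h1, ← mul_prod_erase _ _ (mem_univ i), prod_congr rfl (g := fun _ => (B.card : ℝ))
      (fun j hj => by simp [(mem_erase.1 hj).1])]
    obtain ⟨t, rfl⟩ : ∃ t, s = t + 1 := ⟨s - 1, by have := i.pos; omega⟩
    simp [pow_succ, mul_assoc]
  simp [h, mul_assoc]

noncomputable def z {w : ℕ} (y : Fin w → Bool) : ℝ := ∑ j, if y j then 0 else 1

lemma sum_z (w : ℕ) : ∑ y : Fin w → Bool, z y = w * 2 ^ w / 2 := by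
  have := sum_pi w (univ : Finset Bool) fun b => if b then 0 else 1
  rw [Fintype.piFinset_univ] at this
  simp only [card_univ, Fintype.card_bool, Fintype.sum_bool] at this
  unfold z
  norm_num at this ⊢
  linarith

lemma z_lip {w : ℕ} (x y : Fin w → Bool) : z x - z y ≤ hammingDist x y := by
  unfold z hammingDist
  rw [← sum_sub_distrib, card_filter]
  push_cast
  refine sum_le_sum fun j _ => ?_
  cases x j <;> cases y j <;> norm_num

/-- With `s = s_w`, every coupling of the uniform measures on the two level sets of tribes has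
expected Hamming distance at least `w / 4`. -/
theorem result (w s : ℕ) (hw : 1 ≤ w)
    (hs : IsGreatest {t : ℕ | 1 - (1 - 1 / 2 ^ w : ℝ) ^ t ≤ 1 / 2} s)
    (q : (Fin s → Fin w → Bool) → (Fin s → Fin w → Bool) → ℝ) (h0 : ∀ x y, 0 ≤ q x y)
    (h1 : ∀ x, ∑ y, q x y = unif (fun x => ¬ Tr x) x) (h2 : ∀ y, ∑ x, q x y = unif Tr y) :
    (w : ℝ) / 4 ≤ ∑ x, ∑ y, (d x y : ℝ) * q x y := by
  set a : ℝ := 2 ^ w with ha
  have ha2 : 2 ≤ a := by
    simpa using pow_le_pow_right₀ (show (1 : ℝ) ≤ 2 by norm_num) hw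
  have hs2 : a / 2 ≤ s := by
    obtain ⟨v, rfl⟩ : ∃ v, w = v + 1 := ⟨w - 1, by omega⟩
    have h3 : 2 ^ v ≤ s := by
      refine hs.2 ?_
      have h4 : 1 / a ≤ 1 := by rw [div_le_one (by linarith)]; linarith
      have := one_add_mul_le_pow (a := -(1 / a)) (by linarith) (2 ^ v)
      have h5 : ((2 ^ v : ℕ) : ℝ) * -(1 / a) = -(1 / 2) := by
        rw [ha, pow_succ]; push_cast; field_simp
      simp only [Set.mem_ofPred_eq]
      rw [h5, ← sub_eq_add_neg, ← sub_eq_add_neg] at this
      linarith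
    have h4 : ((2 ^ v : ℕ) : ℝ) ≤ s := by exact_mod_cast h3
    rw [ha, pow_succ]
    push_cast at h4
    linarith
  set B : Finset (Fin w → Bool) := univ.erase fun _ => true
  have hB : (B.card : ℝ) = a - 1 := by
    simp [B, ha]
  have hZ : (univ.filter fun x : Fin s → Fin w → Bool => ¬ Tr x) =
      Fintype.piFinset fun _ => B := by
    ext x
    simp [Tr, B, funext_iff]
  set Z : (Fin s → Fin w → Bool) → ℝ := fun x => ∑ i, z (x i) with hZd
  have e1 := sum_pi s B z
  have e2 := sum_pi s (univ : Finset (Fin w → Bool)) z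
  have e3 : ∑ y ∈ B, z y = w * a / 2 := by
    rw [← sum_z, ← sum_erase_add _ _ (mem_univ fun _ => true)]
    simp [z, B]
  rw [← hZ, e3, hB] at e1
  rw [Fintype.piFinset_univ, sum_z, ← sum_filter_add_sum_filter_not univ Tr] at e2
  have e4 : (((univ.filter fun x : Fin s → Fin w → Bool => ¬ Tr x).card : ℕ) : ℝ) = (a - 1) ^ s := by
    rw [hZ, Fintype.card_piFinset]
    simp [hB]
  have e5 : (((univ.filter fun x : Fin s → Fin w → Bool => Tr x).card : ℕ) : ℝ) =
      a ^ s - (a - 1) ^ s := by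
    have := card_filter_add_card_filter_not (s := univ) (Tr (s := s) (w := w))
    have h3 := congrArg (Nat.cast : ℕ → ℝ) this
    rw [Nat.cast_add, e4] at h3
    simp only [card_univ, Fintype.card_fun, Fintype.card_bool, Fintype.card_fin] at h3
    push_cast at h3
    linarith
  simp only [card_univ, Fintype.card_fun, Fintype.card_bool, Fintype.card_fin, Nat.cast_pow,
    Nat.cast_ofNat, ← ha] at e2
  have p0 : 0 < (a - 1) ^ s := pow_pos (by linarith) _
  have p1 : (a - 1) ^ s < a ^ s := pow_lt_pow_left₀ (by linarith) (by linarith) (by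
    rintro rfl
    simp at hs2
    linarith)
  have k1 : ∑ x, ∑ y, (Z x - Z y) * q x y ≤ ∑ x, ∑ y, (d x y : ℝ) * q x y := by
    refine sum_le_sum fun x _ => sum_le_sum fun y _ => mul_le_mul_of_nonneg_right ?_ (h0 x y)
    simp only [hZd, d, ← sum_sub_distrib, Nat.cast_sum]
    exact sum_le_sum fun i _ => z_lip _ _
  have k2 : ∑ x, ∑ y, (Z x - Z y) * q x y =
      (∑ x ∈ univ.filter fun x => ¬ Tr x, Z x) / (a - 1) ^ s -
        (∑ x ∈ univ.filter Tr, Z x) / (a ^ s - (a - 1) ^ s) := by
    simp only [sub_mul, sum_sub_distrib]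
    rw [sum_comm (f := fun x y => Z y * q x y)]
    simp only [← mul_sum, h1, h2, unif, e4, e5, mul_ite, mul_zero, ← sum_filter, sum_div,
      mul_one_div]
  refine le_trans ?_ (k2 ▸ k1)
  set S0 := ∑ x ∈ univ.filter fun x => ¬ Tr x, Z x
  set S1 := ∑ x ∈ univ.filter Tr, Z x
  have hw' : (1 : ℝ) ≤ w := by exact_mod_cast hw
  have f1 : S0 / (a - 1) ^ s = s * (w * a / 2) / (a - 1) := by
    rw [div_eq_div_iff p0.ne' (by linarith)]
    exact e1
  have f2 : s * (w / 2) + w / 4 ≤ s * (w * a / 2) / (a - 1) := by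
    rw [le_div_iff₀ (by linarith)]
    nlinarith
  have f3 : S1 + S0 = s * (w / 2) * a ^ s := by
    refine mul_right_cancel₀ (show a ≠ 0 by linarith) ?_
    rw [e2]
    ring
  have f4 : s * (w / 2) * (a - 1) ^ s ≤ S0 := by
    rw [← le_div_iff₀ p0]
    linarith
  have f5 : S1 / (a ^ s - (a - 1) ^ s) ≤ s * (w / 2) := by
    rw [div_le_iff₀ (by linarith)]
    linarith
  linarith

end Pool.Agent.Results.MP_b6f08f_co.Lower
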